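import Pool.Agent.R376.NkB
import Pool.Agent.R376.NkC

/-! A Borel filter on `ℕ` that is not `F_σδ` whose algebra has the Nikodym property. -/

namespace Pool.Agent.Results.MP_07734d_lc.ZFin

open Set Topology Pool.Agent.R376.Nk

/-- The total variation of `μ` on the algebra `𝒜` is at most `M`: the sum of `|μ A|` over every
finite pairwise disjoint subfamily of `𝒜` is at most `M`. -/
def VarLE (𝒜 : Set (Set ℕ)) (μ : Set ℕ → ℝ) (M : ℝ) : Prop :=
  ∀ s : Finset (Set ℕ), (∀ A ∈ s, A ∈ 𝒜) → (s : Set (Set ℕ)).PairwiseDisjoint id →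
    ∑ A ∈ s, |μ A| ≤ M

/-- A measure on the algebra `𝒜`: finitely additive on `𝒜`, of bounded total variation
(values outside `𝒜` are irrelevant). -/
structure IsMeas (𝒜 : Set (Set ℕ)) (μ : Set ℕ → ℝ) : Prop where
  add : ∀ A ∈ 𝒜, ∀ B ∈ 𝒜, Disjoint A B → μ (A ∪ B) = μ A + μ B
  bv : ∃ M, VarLE 𝒜 μ M

/-- The Nikodym property. -/
def Nikodym (𝒜 : Set (Set ℕ)) : Prop :=
  ∀ μ : ℕ → Set ℕ → ℝ, (∀ n, IsMeas 𝒜 (μ n)) → (∀ A ∈ 𝒜, ∃ M, ∀ n, |μ n A| ≤ M) →
    ∃ M, ∀ n, VarLE 𝒜 (μ n) M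

/-- A filter as a subset of the Cantor space `ℕ → Bool`. -/
def asSet (F : Filter ℕ) : Set (ℕ → Bool) := {x | {n | x n = true} ∈ F}

/-- the filter -/
def Fz : Filter ℕ where
  sets := {A | Aᶜ ∈ Jd}
  univ_sets := by
    show univᶜ ∈ Jd
    rw [compl_univ]
    exact Jd_mono (empty_subset _) (Jd_cols 0)
  sets_of_superset := by
    intro A B hA hAB
    exact Jd_mono (compl_subset_compl.2 hAB) hA
  inter_sets := by
    intro A B hA hB
    show (A ∩ B)ᶜ ∈ Jd
    rw [compl_inter]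
    exact Jd_union hA hB

lemma mem_Fz (A : Set ℕ) : A ∈ Fz ↔ Aᶜ ∈ Jd := Iff.rfl

lemma infcol_finite {A : Set ℕ} (hA : A.Finite) : infcol A = ∅ := by
  rw [Set.eq_empty_iff_forall_notMem]
  intro n hn
  apply hn
  exact hA.preimage (fun a _ b _ hab => (Nat.pair_eq_pair.1 hab).2)

lemma free1 (A : Set ℕ) (hA : Aᶜ.Finite) : A ∈ Fz := by
  rw [mem_Fz]
  show infcol Aᶜ ∈ Zd
  rw [infcol_finite hA]
  exact Zd_finite Set.finite_empty

lemma univ_not_Zd : (univ : Set ℕ) ∉ Zd := by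
  intro h
  obtain ⟨N0, hN0⟩ := h 2
  have h1 := hN0 (N0 + 1) (by omega)
  have h2 : N0 + 1 ≤ cnt univ (N0 + 1) := by
    unfold cnt
    calc N0 + 1 = (Finset.range (N0 + 1)).card := by rw [Finset.card_range]
      _ ≤ _ := by
        apply Finset.card_le_card
        intro x hx
        rw [mem_cntSet]
        exact ⟨Finset.mem_range.1 hx, mem_univ _⟩
  omega

lemma free2 (A : Set ℕ) (hA : A ∈ Fz) : A.Infinite := by
  intro hfin
  rw [mem_Fz] at hA
  apply univ_not_Zd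
  have : infcol Aᶜ = univ := by
    rw [Set.eq_univ_iff_forall]
    intro n
    have h1 : {m | Nat.pair n m ∈ A}.Finite :=
      hfin.preimage (fun a _ b _ hab => (Nat.pair_eq_pair.1 hab).2)
    have h2 : {m | Nat.pair n m ∈ Aᶜ} = {m | Nat.pair n m ∈ A}ᶜ := rfl
    show {m | Nat.pair n m ∈ Aᶜ}.Infinite
    rw [h2]
    exact h1.infinite_compl
  rw [← this]
  exact hA

/-! ### Borel -/

open Classical in
lemma cnt_sum (S : Set ℕ) (N : ℕ) : cnt S N = ∑ n ∈ Finset.range N, if n ∈ S then 1 else 0 := by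
  rw [← Finset.card_filter]
  unfold cnt
  congr 1

lemma meas_col (n : ℕ) : MeasurableSet {x : ℕ → Bool | n ∈ infcol {i | x i = true}ᶜ} := by
  have e : {x : ℕ → Bool | n ∈ infcol {i | x i = true}ᶜ}
      = ⋂ a : ℕ, ⋃ b ∈ Ici a, {x : ℕ → Bool | x (Nat.pair n b) = true}ᶜ := by
    ext x
    have h1 : (n ∈ infcol {i | x i = true}ᶜ) ↔ {m | ¬ x (Nat.pair n m) = true}.Infinite := Iff.rfl
    rw [mem_ofPred_eq, h1, ← Nat.frequently_atTop_iff_infinite, Filter.frequently_atTop]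
    simp only [mem_iInter, mem_iUnion, mem_Ici, mem_compl_iff, mem_ofPred_eq, exists_prop]
  rw [e]
  apply MeasurableSet.iInter
  intro a
  apply MeasurableSet.biUnion (Set.to_countable _)
  intro b _
  apply MeasurableSet.compl
  exact (measurableSet_singleton true).preimage (measurable_pi_apply (Nat.pair n b))

lemma meas_cnt (N : ℕ) : Measurable (fun x : ℕ → Bool => cnt (infcol {i | x i = true}ᶜ) N) := by
  classical
  simp_rw [cnt_sum]
  apply Finset.measurable_sum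
  intro n _
  exact Measurable.ite (meas_col n) measurable_const measurable_const

lemma meas_Fz : @MeasurableSet (ℕ → Bool) (borel (ℕ → Bool)) (asSet Fz) := by
  rw [← BorelSpace.measurable_eq (α := ℕ → Bool)]
  have e : asSet Fz = ⋂ q : ℕ, ⋃ N0 : ℕ, ⋂ N ∈ Ici N0,
      {x : ℕ → Bool | q * cnt (infcol {i | x i = true}ᶜ) N ≤ N} := by
    ext x
    have h1 : x ∈ asSet Fz ↔ ∀ q : ℕ, ∃ N0 : ℕ, ∀ N, N0 ≤ N →
        q * cnt (infcol {i | x i = true}ᶜ) N ≤ N := Iff.rfl
    rw [h1]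
    simp only [mem_iInter, mem_iUnion, mem_Ici, mem_ofPred_eq]
  rw [e]
  apply MeasurableSet.iInter
  intro q
  apply MeasurableSet.iUnion
  intro N0
  apply MeasurableSet.biInter (Set.to_countable _)
  intro N _
  exact measurableSet_le (measurable_const.mul (meas_cnt N)) measurable_const

/-! ### Not `F_σδ` -/

/-- the column condition -/
def cond (x : ℕ → ℕ → Bool) (n m : ℕ) : Prop :=
  (∀ a ≤ (Nat.unpair (Nat.log 2 n)).1, ∀ l < m, x a l = true → l < (Nat.unpair (Nat.log 2 n)).2) ∧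
  ((Nat.unpair (Nat.log 2 n)).2 = 0 ∨
    ∃ a ≤ (Nat.unpair (Nat.log 2 n)).1, x a ((Nat.unpair (Nat.log 2 n)).2 - 1) = true)

lemma clopen_coord (a l : ℕ) : IsClopen {x : ℕ → ℕ → Bool | x a l = true} := by
  have hc : Continuous (fun x : ℕ → ℕ → Bool => x a l) := by fun_prop
  exact (isClopen_discrete ({true} : Set Bool)).preimage hc

lemma clopen_cond (n m : ℕ) : IsClopen {x : ℕ → ℕ → Bool | cond x n m} := by
  have e : {x : ℕ → ℕ → Bool | cond x n m} =
      (⋂ a ∈ Finset.range ((Nat.unpair (Nat.log 2 n)).1 + 1), ⋂ l ∈ Finset.range m,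
        ({x : ℕ → ℕ → Bool | x a l = true}ᶜ ∪ {_x | l < (Nat.unpair (Nat.log 2 n)).2})) ∩
      ({_x | (Nat.unpair (Nat.log 2 n)).2 = 0} ∪
        ⋃ a ∈ Finset.range ((Nat.unpair (Nat.log 2 n)).1 + 1),
          {x : ℕ → ℕ → Bool | x a ((Nat.unpair (Nat.log 2 n)).2 - 1) = true}) := by
    ext x
    simp only [cond, mem_ofPred_eq, mem_inter_iff, mem_iInter, Finset.mem_range, mem_union,
      mem_compl_iff, mem_iUnion, exists_prop, Nat.lt_succ_iff]
    constructor
    · rintro ⟨h1, h2⟩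
      refine ⟨fun a ha l hl => ?_, h2⟩
      by_cases hx : x a l = true
      · exact Or.inr (h1 a ha l hl hx)
      · exact Or.inl hx
    · rintro ⟨h1, h2⟩
      refine ⟨fun a ha l hl hx => ?_, h2⟩
      rcases h1 a ha l hl with h | h
      · exact absurd hx h
      · exact h
  rw [e]
  apply IsClopen.inter
  · apply isClopen_biInter_finset
    intro a _
    apply isClopen_biInter_finset
    intro l _
    apply IsClopen.union
    · exact (clopen_coord a l).compl
    · by_cases h : l < (Nat.unpair (Nat.log 2 n)).2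
      · simp [h, isClopen_univ]
      · simp [h, isClopen_empty]
  · apply IsClopen.union
    · by_cases h : (Nat.unpair (Nat.log 2 n)).2 = 0
      · simp [h, isClopen_univ]
      · simp [h, isClopen_empty]
    · apply isClopen_biUnion_finset
      intro a _
      exact clopen_coord a _

/-- the reduction -/
noncomputable def Phi (x : ℕ → ℕ → Bool) (i : ℕ) : Bool :=
  ({x : ℕ → ℕ → Bool | cond x (Nat.unpair i).1 (Nat.unpair i).2}ᶜ).boolIndicator x

lemma Phi_cont : Continuous Phi := by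
  apply continuous_pi
  intro i
  exact (continuous_boolIndicator_iff_isClopen _).2 (clopen_cond _ _).compl

lemma Phi_compl (x : ℕ → ℕ → Bool) : {i | Phi x i = true}ᶜ
    = {i | cond x (Nat.unpair i).1 (Nat.unpair i).2} := by
  ext i
  rw [mem_compl_iff, mem_ofPred_eq, mem_ofPred_eq]
  unfold Phi
  rw [← Set.mem_iff_boolIndicator, mem_compl_iff, not_not]
  rfl

lemma infcol_Phi (x : ℕ → ℕ → Bool) : infcol {i | Phi x i = true}ᶜ
    = {n | {m | cond x n m}.Infinite} := by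
  rw [Phi_compl]
  ext n
  show {m | Nat.pair n m ∈ {i | cond x (Nat.unpair i).1 (Nat.unpair i).2}}.Infinite ↔ _
  have : {m | Nat.pair n m ∈ {i | cond x (Nat.unpair i).1 (Nat.unpair i).2}} = {m | cond x n m} := by
    ext m
    simp only [mem_ofPred_eq, Nat.unpair_pair]
  rw [this]
  rfl

lemma Phi_mem (x : ℕ → ℕ → Bool) (hx : x ∉ FinAll) : Phi x ∈ asSet Fz := by
  show infcol {i | Phi x i = true}ᶜ ∈ Zd
  rw [infcol_Phi]
  apply Zd_finite
  have hx' : ∃ a0, {l | x a0 l = true}.Infinite := by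
    by_contra hcon
    push Not at hcon
    exact hx hcon
  obtain ⟨a0, ha0⟩ := hx'
  -- exact bounds
  set G : Set (ℕ × ℕ) := {p | p.1 < a0 ∧ (∀ a ≤ p.1, ∀ l, x a l = true → l < p.2) ∧
    (p.2 = 0 ∨ ∃ a ≤ p.1, x a (p.2 - 1) = true)} with hG
  have hGfin : G.Finite := by
    apply Set.Finite.of_injOn (f := Prod.fst) (t := Iio a0)
    · rintro p hp
      exact hp.1
    · rintro ⟨k, g⟩ ⟨_, h1, h2⟩ ⟨k', g'⟩ ⟨_, h1', h2'⟩ hkk
      simp only at h1 h2 h1' h2' hkk
      subst hkk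
      congr 1
      rcases lt_trichotomy g g' with h | h | h
      · rcases h2' with h0 | ⟨a, ha, hxa⟩
        · omega
        · have := h1 a ha _ hxa
          omega
      · exact h
      · rcases h2 with h0 | ⟨a, ha, hxa⟩
        · omega
        · have := h1' a ha _ hxa
          omega
    · exact Set.finite_Iio a0
  obtain ⟨cm, hcm⟩ := (hGfin.image (fun p => Nat.pair p.1 p.2)).bddAbove
  apply (Set.finite_Iio (2 ^ (cm + 1))).subset
  intro n hn
  rw [mem_Iio]
  have hinf : {m | cond x n m}.Infinite := hn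
  set k := (Nat.unpair (Nat.log 2 n)).1 with hk
  set g := (Nat.unpair (Nat.log 2 n)).2 with hg
  have hall : ∀ a ≤ k, ∀ l, x a l = true → l < g := by
    intro a ha l hl
    obtain ⟨m, hm, hlm⟩ := hinf.exists_gt l
    exact hm.1 a ha l hlm hl
  have hkg : (k, g) ∈ G := by
    refine ⟨?_, hall, ?_⟩
    · by_contra hcon
      obtain ⟨l, hl, hgl⟩ := ha0.exists_gt g
      have := hall a0 (not_lt.1 hcon) l hl
      omega
    · obtain ⟨m, hm⟩ := hinf.nonempty
      exact hm.2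
  have h1 : Nat.pair k g ≤ cm := hcm ⟨(k, g), hkg, rfl⟩
  have h2 : Nat.pair k g = Nat.log 2 n := Nat.pair_unpair _
  rw [h2] at h1
  exact (Nat.lt_pow_succ_log_self (by norm_num) n).trans_le (Nat.pow_le_pow_right (by norm_num) (by omega))

lemma Phi_notMem (x : ℕ → ℕ → Bool) (hx : x ∈ FinAll) : Phi x ∉ asSet Fz := by
  intro h
  have h' : infcol {i | Phi x i = true}ᶜ ∈ Zd := h
  rw [infcol_Phi] at h'
  obtain ⟨N0, hN0⟩ := h' 4
  -- exact bound for the first `N0 + 1` columns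
  have hb : ∃ g, ∀ a ≤ N0, ∀ l, x a l = true → l < g := by
    have hfin : (⋃ a ∈ Iic N0, {l | x a l = true}).Finite :=
      (Set.finite_Iic N0).biUnion (fun a _ => hx a)
    obtain ⟨b, hb⟩ := hfin.bddAbove
    refine ⟨b + 1, fun a ha l hl => ?_⟩
    have : l ≤ b := hb (mem_iUnion₂.2 ⟨a, ha, hl⟩)
    omega
  classical
  obtain ⟨g, hg1, hg2⟩ : ∃ g, (∀ a ≤ N0, ∀ l, x a l = true → l < g) ∧
      (g = 0 ∨ ∃ a ≤ N0, x a (g - 1) = true) := by
    refine ⟨Nat.find hb, Nat.find_spec hb, ?_⟩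
    rcases Nat.eq_zero_or_pos (Nat.find hb) with h0 | h0
    · exact Or.inl h0
    · right
      have := Nat.find_min hb (m := Nat.find hb - 1) (by omega)
      push Not at this
      obtain ⟨a, ha, l, hl, hgl⟩ := this
      have h2 := Nat.find_spec hb a ha l hl
      have : l = Nat.find hb - 1 := by omega
      exact ⟨a, ha, this ▸ hl⟩
  set c := Nat.pair N0 g with hc
  have hcN : N0 ≤ c := Nat.left_le_pair N0 g
  have hblock : ∀ n, 2 ^ c ≤ n → n < 2 ^ (c + 1) → n ∈ {n | {m | cond x n m}.Infinite} := by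
    intro n h1 h2
    have hlog : Nat.log 2 n = c := by
      apply Nat.log_eq_of_pow_le_of_lt_pow h1 h2
    have : {m | cond x n m} = univ := by
      rw [Set.eq_univ_iff_forall]
      intro m
      show cond x n m
      unfold cond
      rw [hlog, hc, Nat.unpair_pair]
      exact ⟨fun a ha l _ hl => hg1 a ha l hl, hg2⟩
    show {m | cond x n m}.Infinite
    rw [this]
    exact Set.infinite_univ
  have hpow : N0 ≤ 2 ^ (c + 1) := by
    have : c + 1 < 2 ^ (c + 1) := Nat.lt_two_pow_self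
    omega
  have h1 := hN0 (2 ^ (c + 1)) hpow
  have h2 : 2 ^ c ≤ cnt {n | {m | cond x n m}.Infinite} (2 ^ (c + 1)) := by
    unfold cnt
    calc 2 ^ c = (Finset.Ico (2 ^ c) (2 ^ (c + 1))).card := by
          rw [Nat.card_Ico, pow_succ]; omega
      _ ≤ _ := by
        apply Finset.card_le_card
        intro n hn
        rw [Finset.mem_Ico] at hn
        rw [mem_cntSet]
        exact ⟨hn.2, hblock n hn.1 hn.2⟩
  have h3 : 2 ^ (c + 1) = 2 * 2 ^ c := by rw [pow_succ]; ring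
  have h4 : 0 < 2 ^ c := by positivity
  omega

lemma not_Fsd : ¬ ∃ C : ℕ → ℕ → Set (ℕ → Bool), (∀ i j, IsClosed (C i j)) ∧
    asSet Fz = ⋂ i, ⋃ j, C i j := by
  rintro ⟨C, hC, h⟩
  apply FinAll_not (fun i j => Phi ⁻¹' (C i j)ᶜ) (fun i j => (hC i j).isOpen_compl.preimage Phi_cont)
  ext x
  have h1 : x ∈ FinAll ↔ Phi x ∉ asSet Fz := by
    constructor
    · exact Phi_notMem x
    · intro h2
      by_contra hcon
      exact h2 (Phi_mem x hcon)
  rw [h1, h]
  simp only [mem_iInter, mem_iUnion, mem_preimage, mem_compl_iff, not_forall, not_exists]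

/-! ### Nikodym -/

/-- the algebra -/
def Alg : Set (Set ℕ) := {A | A ∈ Fz ∨ Aᶜ ∈ Fz}

lemma Jd_Alg {A : Set ℕ} (hA : A ∈ Jd) : A ∈ Alg := by
  right
  rw [mem_Fz, compl_compl]
  exact hA

lemma Alg_cases {A : Set ℕ} (hA : A ∈ Alg) : A ∈ Jd ∨ Aᶜ ∈ Jd := by
  rcases hA with h | h
  · exact Or.inr h
  · left
    rw [mem_Fz, compl_compl] at h
    exact h

lemma Alg_union {A B : Set ℕ} (hA : A ∈ Alg) (hB : B ∈ Alg) : A ∪ B ∈ Alg := by
  rcases Alg_cases hA with h | h
  · rcases Alg_cases hB with h' | h'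
    · exact Jd_Alg (Jd_union h h')
    · left
      rw [mem_Fz]
      exact Jd_mono (compl_subset_compl.2 subset_union_right) h'
  · left
    rw [mem_Fz]
    exact Jd_mono (compl_subset_compl.2 subset_union_left) h

lemma Alg_empty : (∅ : Set ℕ) ∈ Alg := Jd_Alg (Jd_mono (empty_subset _) (Jd_cols 0))

lemma Alg_sum (μ : Set ℕ → ℝ)
    (hadd : ∀ A ∈ Alg, ∀ B ∈ Alg, Disjoint A B → μ (A ∪ B) = μ A + μ B) (s : Finset (Set ℕ)) :
    (∀ A ∈ s, A ∈ Alg) → (s : Set (Set ℕ)).PairwiseDisjoint id →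
    (⋃ A ∈ s, A) ∈ Alg ∧ μ (⋃ A ∈ s, A) = ∑ A ∈ s, μ A := by
  classical
  induction s using Finset.induction_on with
  | empty =>
    intro _ _
    have h0 := hadd ∅ Alg_empty ∅ Alg_empty (by simp)
    simp only [union_empty] at h0
    have h1 : (⋃ A ∈ (∅ : Finset (Set ℕ)), A) = ∅ := by simp
    rw [h1]
    refine ⟨Alg_empty, ?_⟩
    rw [Finset.sum_empty]
    linarith
  | insert a s ha ih =>
    intro h1 h2
    obtain ⟨h3, h4⟩ := ih (fun A hA => h1 A (Finset.mem_insert_of_mem hA))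
      (h2.subset (by simp))
    have h5 : Disjoint a (⋃ A ∈ s, A) := by
      rw [Set.disjoint_iUnion₂_right]
      intro i hi
      have := h2 (x := a) (by simp) (y := i) (by simp [hi]) (by rintro rfl; exact ha hi)
      exact this
    rw [Finset.set_biUnion_insert, Finset.sum_insert ha]
    have h6 := h1 a (Finset.mem_insert_self _ _)
    exact ⟨Alg_union h6 h3, by rw [hadd a h6 _ h3 h5, h4]⟩

lemma VarLE_of_bound (μ : Set ℕ → ℝ)
    (hadd : ∀ A ∈ Alg, ∀ B ∈ Alg, Disjoint A B → μ (A ∪ B) = μ A + μ B) (M : ℝ)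
    (hM : ∀ A ∈ Alg, |μ A| ≤ M) : VarLE Alg μ (2 * M) := by
  classical
  intro s hs hd
  rw [← Finset.sum_filter_add_sum_filter_not s (fun A => 0 ≤ μ A)]
  obtain ⟨a1, a2⟩ := Alg_sum μ hadd (s.filter (fun A => 0 ≤ μ A))
    (fun A hA => hs A (Finset.mem_filter.1 hA).1)
    (hd.subset (Finset.coe_subset.2 (Finset.filter_subset _ _)))
  obtain ⟨b1, b2⟩ := Alg_sum μ hadd (s.filter (fun A => ¬ 0 ≤ μ A))
    (fun A hA => hs A (Finset.mem_filter.1 hA).1)
    (hd.subset (Finset.coe_subset.2 (Finset.filter_subset _ _)))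
  have h1 : ∑ A ∈ s with 0 ≤ μ A, |μ A| = ∑ A ∈ s with 0 ≤ μ A, μ A := by
    apply Finset.sum_congr rfl
    intro A hA
    exact abs_of_nonneg (Finset.mem_filter.1 hA).2
  have h2 : ∑ A ∈ s with ¬ 0 ≤ μ A, |μ A| = - ∑ A ∈ s with ¬ 0 ≤ μ A, μ A := by
    rw [← Finset.sum_neg_distrib]
    apply Finset.sum_congr rfl
    intro A hA
    exact abs_of_neg (not_le.1 (Finset.mem_filter.1 hA).2)
  rw [h1, h2, ← a2, ← b2]
  have h3 := (abs_le.1 (hM _ a1)).2
  have h4 := (abs_le.1 (hM _ b1)).1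
  linarith

lemma nik_Alg : Nikodym Alg := by
  classical
  intro μ hμ hpt
  have hbdA : ∀ n, ∃ M, ∀ A ∈ Alg, |μ n A| ≤ M := by
    intro n
    obtain ⟨M, hM⟩ := (hμ n).bv
    refine ⟨M, fun A hA => ?_⟩
    have := hM {A} (by intro B hB; rw [Finset.mem_singleton] at hB; rw [hB]; exact hA) (by simp)
    simpa using this
  obtain ⟨M1, hM1⟩ := nik_Jd μ
    (fun n A B hA hB hAB => (hμ n).add A (Jd_Alg hA) B (Jd_Alg hB) hAB)
    (fun n => by
      obtain ⟨M, hM⟩ := hbdA n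
      exact ⟨M, fun A hA => hM A (Jd_Alg hA)⟩)
    (fun A hA => hpt A (Jd_Alg hA))
  have hU : (univ : Set ℕ) ∈ Alg := Or.inl Filter.univ_mem
  obtain ⟨M2, hM2⟩ := hpt univ hU
  refine ⟨2 * (M1 + M2), fun n => ?_⟩
  apply VarLE_of_bound (μ n) (hμ n).add
  intro A hA
  have h0 : 0 ≤ M1 := (abs_nonneg _).trans (hM1 n ∅ (Jd_mono (empty_subset _) (Jd_cols 0)))
  have h0' : 0 ≤ M2 := (abs_nonneg _).trans (hM2 n)
  rcases Alg_cases hA with h | h
  · have := hM1 n A h
    linarith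
  · have h1 := (hμ n).add A hA Aᶜ (Jd_Alg h) disjoint_compl_right
    rw [union_compl_self] at h1
    have h2 := hM1 n Aᶜ h
    have h3 := hM2 n
    have h4 : μ n A = μ n univ - μ n Aᶜ := by linarith
    rw [h4]
    exact (abs_sub _ _).trans (by linarith)

/-- There is a free Borel filter on `ℕ` that is not an `F_σδ` subset of the Cantor space and
whose algebra has the Nikodym property. -/
theorem result : ∃ F : Filter ℕ,
    (∀ A : Set ℕ, Aᶜ.Finite → A ∈ F) ∧ (∀ A ∈ F, A.Infinite) ∧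
    @MeasurableSet (ℕ → Bool) (borel (ℕ → Bool)) (asSet F) ∧
    (¬ ∃ C : ℕ → ℕ → Set (ℕ → Bool), (∀ i j, IsClosed (C i j)) ∧ asSet F = ⋂ i, ⋃ j, C i j) ∧
    Nikodym {A | A ∈ F ∨ Aᶜ ∈ F} :=
  ⟨Fz, free1, free2, meas_Fz, not_Fsd, nik_Alg⟩

end Pool.Agent.Results.MP_07734d_lc.ZFin
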